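import Mathlib

set_option autoImplicit false

namespace Pool.Agent.Lib.MP_60c8e6_al

open MeasureTheory Matrix

/-- The group `SO(3, ℝ)`. -/
abbrev SO3 : Type := Matrix.specialOrthogonalGroup (Fin 3) ℝ

lemma so3_mem {M : Matrix (Fin 3) (Fin 3) ℝ} (h : M * Mᵀ = 1) (hd : M.det = 1) :
    M ∈ Matrix.specialOrthogonalGroup (Fin 3) ℝ :=
  Matrix.mem_specialOrthogonalGroup_iff.2 ⟨(Matrix.mem_orthogonalGroup_iff _ _).2 h, hd⟩

lemma so3_mul_transpose (g : SO3) : (g : Matrix (Fin 3) (Fin 3) ℝ) * (g : Matrix (Fin 3) (Fin 3) ℝ)ᵀ = 1 :=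
  (Matrix.mem_orthogonalGroup_iff _ _).1 (Matrix.mem_specialOrthogonalGroup_iff.1 g.2).1

lemma so3_transpose_mul (g : SO3) : (g : Matrix (Fin 3) (Fin 3) ℝ)ᵀ * (g : Matrix (Fin 3) (Fin 3) ℝ) = 1 :=
  (Matrix.mem_orthogonalGroup_iff' _ _).1 (Matrix.mem_specialOrthogonalGroup_iff.1 g.2).1

lemma so3_det (g : SO3) : (g : Matrix (Fin 3) (Fin 3) ℝ).det = 1 :=
  (Matrix.mem_specialOrthogonalGroup_iff.1 g.2).2

lemma so3_inv (g : SO3) : ((g⁻¹ : SO3) : Matrix (Fin 3) (Fin 3) ℝ) = (g : Matrix (Fin 3) (Fin 3) ℝ)ᵀ := by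
  have h1 : ((g⁻¹ : SO3) : Matrix (Fin 3) (Fin 3) ℝ) * (g : Matrix (Fin 3) (Fin 3) ℝ) = 1 := by
    have h := inv_mul_cancel g
    have h2 := congrArg Subtype.val h
    exact h2
  calc ((g⁻¹ : SO3) : Matrix (Fin 3) (Fin 3) ℝ)
      = ((g⁻¹ : SO3) : Matrix (Fin 3) (Fin 3) ℝ) *
        ((g : Matrix (Fin 3) (Fin 3) ℝ) * (g : Matrix (Fin 3) (Fin 3) ℝ)ᵀ) := by
        rw [so3_mul_transpose, mul_one]
    _ = (g : Matrix (Fin 3) (Fin 3) ℝ)ᵀ := by rw [← mul_assoc, h1, one_mul]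

instance : ContinuousMul SO3 :=
  Submonoid.continuousMul _

instance : ContinuousInv SO3 := ⟨by
  rw [continuous_induced_rng]
  have : (Subtype.val ∘ fun g : SO3 => g⁻¹) =
      fun g : SO3 => (g : Matrix (Fin 3) (Fin 3) ℝ)ᵀ := by
    funext g
    exact so3_inv g
  rw [this]
  exact continuous_subtype_val.matrix_transpose⟩

instance : IsTopologicalGroup SO3 where

lemma so3_isClosed : IsClosed
    ((Matrix.specialOrthogonalGroup (Fin 3) ℝ : Submonoid _) : Set (Matrix (Fin 3) (Fin 3) ℝ)) := by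
  have h : ((Matrix.specialOrthogonalGroup (Fin 3) ℝ : Submonoid _) : Set (Matrix (Fin 3) (Fin 3) ℝ))
      = {M | M * Mᵀ = 1} ∩ {M | M.det = 1} := by
    ext M
    constructor
    · intro hM
      exact ⟨so3_mul_transpose ⟨M, hM⟩, so3_det ⟨M, hM⟩⟩
    · rintro ⟨h1, h2⟩
      exact so3_mem h1 h2
  rw [h]
  apply IsClosed.inter
  · exact isClosed_eq (by fun_prop) continuous_const
  · exact isClosed_eq (by fun_prop) continuous_const

lemma so3_entry_sq_le (g : SO3) (i j : Fin 3) :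
    ((g : Matrix (Fin 3) (Fin 3) ℝ) i j) ^ 2 ≤ 1 := by
  have h := congrFun (congrFun (so3_mul_transpose g) i) i
  rw [Matrix.mul_apply, Matrix.one_apply_eq] at h
  simp only [Matrix.transpose_apply] at h
  rw [← h]
  have h2 : ((g : Matrix (Fin 3) (Fin 3) ℝ) i j) ^ 2 =
      (g : Matrix (Fin 3) (Fin 3) ℝ) i j * (g : Matrix (Fin 3) (Fin 3) ℝ) i j := sq _
  rw [h2]
  exact Finset.single_le_sum (f := fun k => (g : Matrix (Fin 3) (Fin 3) ℝ) i k *
    (g : Matrix (Fin 3) (Fin 3) ℝ) i k) (fun k _ => mul_self_nonneg _) (Finset.mem_univ j)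

lemma so3_abs_entry_le (g : SO3) (i j : Fin 3) :
    |(g : Matrix (Fin 3) (Fin 3) ℝ) i j| ≤ 1 := by
  have := so3_entry_sq_le g i j
  exact abs_le_one_iff_mul_self_le_one.2 (by nlinarith)

instance : CompactSpace SO3 := by
  refine (isCompact_iff_compactSpace (s := ((Matrix.specialOrthogonalGroup (Fin 3) ℝ : Submonoid _) :
    Set (Matrix (Fin 3) (Fin 3) ℝ)))).1 ?_
  have hsub : ((Matrix.specialOrthogonalGroup (Fin 3) ℝ : Submonoid _) :
      Set (Matrix (Fin 3) (Fin 3) ℝ)) ⊆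
      Set.pi Set.univ (fun _ : Fin 3 => Set.pi Set.univ (fun _ : Fin 3 => Set.Icc (-1 : ℝ) 1)) := by
    intro M hM i _ j _
    exact abs_le.1 (so3_abs_entry_le ⟨M, hM⟩ i j)
  exact IsCompact.of_isClosed_subset
    (isCompact_univ_pi fun _ => isCompact_univ_pi fun _ => isCompact_Icc) so3_isClosed hsub

instance : MeasurableSpace SO3 := borel SO3
instance : BorelSpace SO3 := ⟨rfl⟩

/-- The normalised Haar measure on `SO(3, ℝ)`. -/
noncomputable def haar : Measure SO3 := Measure.haarMeasure ⊤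

instance : haar.IsHaarMeasure := by unfold haar; infer_instance

instance : IsProbabilityMeasure haar := ⟨by
  have h := Measure.haarMeasure_self (G := SO3) (K₀ := ⊤)
  simpa [haar] using h⟩

/-- The set `C(u, θ)` of rotations moving the unit vector `u` by an angle less than `θ`. -/
def cap (u : Fin 3 → ℝ) (θ : ℝ) : Set SO3 :=
  {g | Real.arccos (u ⬝ᵥ ((g : Matrix (Fin 3) (Fin 3) ℝ) *ᵥ u)) < θ}

end Pool.Agent.Lib.MP_60c8e6_al
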