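import Mathlib
import Pool.Agent.Lib.MP_60c8e6_al.Basic

set_option autoImplicit false

namespace Pool.Agent.Lib.MP_60c8e6_al

open MeasureTheory Matrix

/-- Matrix entries as functions. -/
def ent (g : SO3) (i j : Fin 3) : ℝ := (g : Matrix (Fin 3) (Fin 3) ℝ) i j

lemma continuous_ent (i j : Fin 3) : Continuous (fun g : SO3 => ent g i j) :=
  continuous_subtype_val.matrix_elem i j

lemma integrable_of_cont {f : SO3 → ℝ} (hf : Continuous f) : Integrable f haar :=
  hf.integrable_of_hasCompactSupport (HasCompactSupport.of_compactSpace f)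

lemma ent_mul (h g : SO3) (i j : Fin 3) :
    ent (h * g) i j = ent h i 0 * ent g 0 j + ent h i 1 * ent g 1 j + ent h i 2 * ent g 2 j := by
  show (((h * g : SO3) : Matrix (Fin 3) (Fin 3) ℝ)) i j = _
  have : ((h * g : SO3) : Matrix (Fin 3) (Fin 3) ℝ) =
    (h : Matrix (Fin 3) (Fin 3) ℝ) * (g : Matrix (Fin 3) (Fin 3) ℝ) := rfl
  rw [this, Matrix.mul_apply, Fin.sum_univ_three]
  rfl

lemma ent_inv (g : SO3) (i j : Fin 3) : ent g⁻¹ i j = ent g j i := by
  show (((g⁻¹ : SO3) : Matrix (Fin 3) (Fin 3) ℝ)) i j = _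
  rw [so3_inv]
  rfl

lemma col_norm (g : SO3) (j : Fin 3) : ent g 0 j ^ 2 + ent g 1 j ^ 2 + ent g 2 j ^ 2 = 1 := by
  have h := congrFun (congrFun (so3_transpose_mul g) j) j
  rw [Matrix.mul_apply, Matrix.one_apply_eq, Fin.sum_univ_three] at h
  simp only [Matrix.transpose_apply] at h
  show (g : Matrix (Fin 3) (Fin 3) ℝ) 0 j ^ 2 + (g : Matrix (Fin 3) (Fin 3) ℝ) 1 j ^ 2 +
    (g : Matrix (Fin 3) (Fin 3) ℝ) 2 j ^ 2 = 1
  linarith [h, sq ((g : Matrix (Fin 3) (Fin 3) ℝ) 0 j), sq ((g : Matrix (Fin 3) (Fin 3) ℝ) 1 j),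
    sq ((g : Matrix (Fin 3) (Fin 3) ℝ) 2 j)]

lemma row_norm (g : SO3) (i : Fin 3) : ent g i 0 ^ 2 + ent g i 1 ^ 2 + ent g i 2 ^ 2 = 1 := by
  have h := col_norm g⁻¹ i
  simpa [ent_inv] using h

/-- Rotation in the plane of the coordinates `0, 1`. -/
noncomputable def rot01 (φ : ℝ) : SO3 :=
  ⟨!![Real.cos φ, Real.sin φ, 0; -Real.sin φ, Real.cos φ, 0; 0, 0, 1], by
    apply so3_mem
    · ext i j
      fin_cases i <;> fin_cases j <;>
        simp [Matrix.mul_apply, Fin.sum_univ_three] <;>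
        nlinarith [Real.sin_sq_add_cos_sq φ]
    · rw [Matrix.det_fin_three]
      simp
      nlinarith [Real.sin_sq_add_cos_sq φ]⟩

/-- Rotation in the plane of the coordinates `0, 2`. -/
noncomputable def rot02 (φ : ℝ) : SO3 :=
  ⟨!![Real.cos φ, 0, Real.sin φ; 0, 1, 0; -Real.sin φ, 0, Real.cos φ], by
    apply so3_mem
    · ext i j
      fin_cases i <;> fin_cases j <;>
        simp [Matrix.mul_apply, Fin.sum_univ_three] <;>
        nlinarith [Real.sin_sq_add_cos_sq φ]
    · rw [Matrix.det_fin_three]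
      simp
      nlinarith [Real.sin_sq_add_cos_sq φ]⟩

lemma rot01_mul (φ : ℝ) (g : SO3) :
    ent (rot01 φ * g) 0 0 = Real.cos φ * ent g 0 0 + Real.sin φ * ent g 1 0 := by
  rw [ent_mul]
  simp [ent, rot01]

lemma rot02_mul (φ : ℝ) (g : SO3) :
    ent (rot02 φ * g) 0 0 = Real.cos φ * ent g 0 0 + Real.sin φ * ent g 2 0 := by
  rw [ent_mul]
  simp [ent, rot02]

/-- The moments. -/
noncomputable def mom (k : ℕ) : ℝ := ∫ g, ent g 0 0 ^ k ∂haar

lemma rot_moment (i : Fin 3) (hi : i = 1 ∨ i = 2) (φ : ℝ) (k : ℕ) :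
    ∫ g, (Real.cos φ * ent g 0 0 + Real.sin φ * ent g i 0) ^ k ∂haar = mom k := by
  rcases hi with rfl | rfl
  · rw [mom, ← integral_mul_left_eq_self (fun g => ent g 0 0 ^ k) (rot01 φ)]
    simp only [rot01_mul]
  · rw [mom, ← integral_mul_left_eq_self (fun g => ent g 0 0 ^ k) (rot02 φ)]
    simp only [rot02_mul]

lemma line_moment (i : Fin 3) (hi : i = 1 ∨ i = 2) (y : ℝ) (m : ℕ) :
    ∫ g, (ent g 0 0 + y * ent g i 0) ^ (2 * m) ∂haar = mom (2 * m) * (1 + y ^ 2) ^ m := by
  have hpos : 0 < 1 + y ^ 2 := by positivity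
  have hs : Real.sqrt (1 + y ^ 2) ≠ 0 := (Real.sqrt_pos.2 hpos).ne'
  have h1 : ∀ g : SO3, (ent g 0 0 + y * ent g i 0) ^ (2 * m) = (1 + y ^ 2) ^ m *
      (Real.cos (Real.arctan y) * ent g 0 0 + Real.sin (Real.arctan y) * ent g i 0) ^ (2 * m) := by
    intro g
    rw [Real.cos_arctan, Real.sin_arctan]
    have h2 : (1 / Real.sqrt (1 + y ^ 2) * ent g 0 0 + y / Real.sqrt (1 + y ^ 2) * ent g i 0) =
      (ent g 0 0 + y * ent g i 0) / Real.sqrt (1 + y ^ 2) := by field_simp
    rw [h2, div_pow, pow_mul (Real.sqrt (1 + y ^ 2)), Real.sq_sqrt hpos.le]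
    field_simp
  simp only [h1]
  rw [integral_const_mul, rot_moment i hi, mul_comm]

lemma mixed_moment (i : Fin 3) (hi : i = 1 ∨ i = 2) (m : ℕ) (hm : 1 ≤ m) :
    ((2 * m).choose 2 : ℝ) * ∫ g, ent g 0 0 ^ (2 * m - 2) * ent g i 0 ^ 2 ∂haar =
      mom (2 * m) * m := by
  let P : Polynomial ℝ := ∑ j ∈ Finset.range (2 * m + 1),
    Polynomial.C (((2 * m).choose j : ℝ) * ∫ g, ent g 0 0 ^ (2 * m - j) * ent g i 0 ^ j ∂haar) *
      Polynomial.X ^ j
  let Q : Polynomial ℝ := Polynomial.C (mom (2 * m)) * Polynomial.expand ℝ 2 ((1 + Polynomial.X) ^ m)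
  have hPQ : P = Q := by
    apply Polynomial.funext
    intro y
    have hQ : Q.eval y = mom (2 * m) * (1 + y ^ 2) ^ m := by
      simp [Q]
    have hP : P.eval y = ∫ g, (ent g 0 0 + y * ent g i 0) ^ (2 * m) ∂haar := by
      simp only [P, Polynomial.eval_finsetSum, Polynomial.eval_mul, Polynomial.eval_C,
        Polynomial.eval_pow, Polynomial.eval_X]
      have h1 : ∀ g : SO3, (ent g 0 0 + y * ent g i 0) ^ (2 * m) =
          ∑ j ∈ Finset.range (2 * m + 1),
            (((2 * m).choose j : ℝ) * y ^ j) * (ent g 0 0 ^ (2 * m - j) * ent g i 0 ^ j) := by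
        intro g
        rw [add_comm, add_pow]
        refine Finset.sum_congr rfl fun j _ => ?_
        rw [mul_pow]; ring
      simp only [h1]
      rw [integral_finsetSum]
      · refine Finset.sum_congr rfl fun j _ => ?_
        rw [integral_const_mul]; ring
      · intro j _
        apply integrable_of_cont
        have c0 := continuous_ent 0 0
        have c1 := continuous_ent i 0
        fun_prop
    rw [hP, hQ, line_moment i hi]
  have h2 : P.coeff 2 = Q.coeff 2 := by rw [hPQ]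
  have hP2 : P.coeff 2 = ((2 * m).choose 2 : ℝ) *
      ∫ g, ent g 0 0 ^ (2 * m - 2) * ent g i 0 ^ 2 ∂haar := by
    simp only [P, Polynomial.finsetSum_coeff, Polynomial.coeff_C_mul, Polynomial.coeff_X_pow]
    rw [Finset.sum_eq_single 2]
    · simp
    · intro j _ hj
      simp [Ne.symm hj]
    · intro h
      exfalso
      apply h
      rw [Finset.mem_range]; omega
  have hQ2 : Q.coeff 2 = mom (2 * m) * m := by
    simp only [Q, Polynomial.coeff_C_mul]
    rw [show (2 : ℕ) = 1 * 2 by norm_num, Polynomial.coeff_expand_mul (by norm_num),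
      Polynomial.coeff_one_add_X_pow]
    simp
  rw [← hP2, h2, hQ2]

lemma mom_zero : mom 0 = 1 := by simp [mom]

lemma mom_even_rec (m : ℕ) (hm : 1 ≤ m) :
    mom (2 * m) * (2 * m + 1) = mom (2 * m - 2) * (2 * m - 1) := by
  have h1 := mixed_moment 1 (Or.inl rfl) m hm
  have h2 := mixed_moment 2 (Or.inr rfl) m hm
  have hch : ((2 * m).choose 2 : ℝ) = m * (2 * m - 1) := by
    rw [Nat.cast_choose_two]; push_cast; ring
  rw [hch] at h1 h2
  have hm0 : (m : ℝ) ≠ 0 := by positivity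
  have h3 : (2 * (m : ℝ) - 1) * ∫ g, ent g 0 0 ^ (2 * m - 2) * ent g 1 0 ^ 2 ∂haar = mom (2 * m) := by
    apply mul_left_cancel₀ hm0
    linarith
  have h4 : (2 * (m : ℝ) - 1) * ∫ g, ent g 0 0 ^ (2 * m - 2) * ent g 2 0 ^ 2 ∂haar = mom (2 * m) := by
    apply mul_left_cancel₀ hm0
    linarith
  have c0 := continuous_ent 0 0
  have c1 := continuous_ent 1 0
  have c2 := continuous_ent 2 0
  have h5 : mom (2 * m - 2) = mom (2 * m) +
      (∫ g, ent g 0 0 ^ (2 * m - 2) * ent g 1 0 ^ 2 ∂haar) +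
      ∫ g, ent g 0 0 ^ (2 * m - 2) * ent g 2 0 ^ 2 ∂haar := by
    have h6 : ∀ g : SO3, ent g 0 0 ^ (2 * m - 2) = ent g 0 0 ^ (2 * m) +
        ent g 0 0 ^ (2 * m - 2) * ent g 1 0 ^ 2 + ent g 0 0 ^ (2 * m - 2) * ent g 2 0 ^ 2 := by
      intro g
      have h7 : ent g 0 0 ^ (2 * m) = ent g 0 0 ^ (2 * m - 2) * ent g 0 0 ^ 2 := by
        rw [← pow_add]; congr 1; omega
      rw [h7, ← mul_add, ← mul_add, col_norm, mul_one]
    unfold mom
    rw [← integral_add, ← integral_add]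
    · exact integral_congr_ae (Filter.Eventually.of_forall h6)
    · apply integrable_of_cont; fun_prop
    · apply integrable_of_cont; fun_prop
    · apply integrable_of_cont; fun_prop
    · apply integrable_of_cont; fun_prop
  rw [h5]
  have : (2 * (m : ℝ) - 1) * (mom (2 * m) +
      (∫ g, ent g 0 0 ^ (2 * m - 2) * ent g 1 0 ^ 2 ∂haar) +
      ∫ g, ent g 0 0 ^ (2 * m - 2) * ent g 2 0 ^ 2 ∂haar) =
      (2 * (m : ℝ) - 1) * mom (2 * m) + mom (2 * m) + mom (2 * m) := by
    rw [mul_add, mul_add, h3, h4]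
  linarith

lemma mom_even (m : ℕ) : mom (2 * m) = 1 / (2 * m + 1) := by
  induction m with
  | zero => simp [mom_zero]
  | succ m ih =>
    have h := mom_even_rec (m + 1) (by omega)
    have h1 : 2 * (m + 1) - 2 = 2 * m := by omega
    rw [h1, ih] at h
    push_cast at h ⊢
    have h2 : (2 * (m : ℝ) + 1) ≠ 0 := by positivity
    have h3 : (2 * ((m : ℝ) + 1) + 1) ≠ 0 := by positivity
    rw [eq_div_iff h3, h]
    field_simp
    ring

lemma mom_odd (m : ℕ) : mom (2 * m + 1) = 0 := by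
  have h := rot_moment 2 (Or.inr rfl) Real.pi (2 * m + 1)
  rw [Real.cos_pi, Real.sin_pi] at h
  have h1 : ∀ g : SO3, (-1 * ent g 0 0 + 0 * ent g 2 0) ^ (2 * m + 1) =
      -(ent g 0 0 ^ (2 * m + 1)) := by
    intro g
    have : (-1 * ent g 0 0 + 0 * ent g 2 0) = -(ent g 0 0) := by ring
    rw [this, Odd.neg_pow ⟨m, rfl⟩]
  simp only [h1] at h
  rw [integral_neg] at h
  have h2 : -mom (2 * m + 1) = mom (2 * m + 1) := h
  linarith

lemma mom_eq (k : ℕ) : mom k = (1 / 2) * ∫ x in (-1 : ℝ)..1, x ^ k := by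
  rw [integral_pow]
  rcases Nat.even_or_odd' k with ⟨m, rfl | rfl⟩
  · rw [mom_even, Odd.neg_one_pow ⟨m, rfl⟩]
    push_cast
    field_simp
    ring
  · rw [mom_odd, Even.neg_one_pow ⟨m + 1, by ring⟩]
    simp

lemma poly_law (p : Polynomial ℝ) :
    ∫ g, p.eval (ent g 0 0) ∂haar = (1 / 2) * ∫ x in (-1 : ℝ)..1, p.eval x := by
  induction p using Polynomial.induction_on' with
  | add p q hp hq =>
    have c0 := continuous_ent 0 0
    have hcp : Continuous (fun g : SO3 => p.eval (ent g 0 0)) := p.continuous.comp c0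
    have hcq : Continuous (fun g : SO3 => q.eval (ent g 0 0)) := q.continuous.comp c0
    simp only [Polynomial.eval_add]
    rw [integral_add (integrable_of_cont hcp) (integrable_of_cont hcq), hp, hq,
      intervalIntegral.integral_add (p.continuous.intervalIntegrable _ _)
        (q.continuous.intervalIntegrable _ _)]
    ring
  | monomial n a =>
    simp only [Polynomial.eval_monomial]
    rw [integral_const_mul, intervalIntegral.integral_const_mul]
    have := mom_eq n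
    unfold mom at this
    rw [this]; ring

lemma cont_law (f : ℝ → ℝ) (hf : Continuous f) :
    ∫ g, f (ent g 0 0) ∂haar = (1 / 2) * ∫ x in (-1 : ℝ)..1, f x := by
  have hmem : ∀ g : SO3, ent g 0 0 ∈ Set.Icc (-1 : ℝ) 1 := fun g => abs_le.1 (so3_abs_entry_le g 0 0)
  have c0 := continuous_ent 0 0
  by_contra hne
  set δ := |(∫ g, f (ent g 0 0) ∂haar) - (1 / 2) * ∫ x in (-1 : ℝ)..1, f x| with hδ
  have hδpos : 0 < δ := abs_pos.2 (sub_ne_zero.2 hne)
  obtain ⟨p, hp⟩ := exists_polynomial_near_of_continuousOn (-1) 1 f hf.continuousOn (δ / 4)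
    (by positivity)
  have h1 : |(∫ g, f (ent g 0 0) ∂haar) - ∫ g, p.eval (ent g 0 0) ∂haar| ≤ δ / 4 := by
    have i1 : Integrable (fun g : SO3 => f (ent g 0 0)) haar := integrable_of_cont (hf.comp c0)
    have i2 : Integrable (fun g : SO3 => p.eval (ent g 0 0)) haar :=
      integrable_of_cont (p.continuous.comp c0)
    rw [← integral_sub i1 i2]
    calc |∫ g, (f (ent g 0 0) - p.eval (ent g 0 0)) ∂haar|
        = ‖∫ g, (f (ent g 0 0) - p.eval (ent g 0 0)) ∂haar‖ := (Real.norm_eq_abs _).symm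
      _ ≤ (δ / 4) * haar.real Set.univ := by
          apply norm_integral_le_of_norm_le_const
          refine Filter.Eventually.of_forall fun g => ?_
          rw [Real.norm_eq_abs, abs_sub_comm]
          exact (hp _ (hmem g)).le
      _ = δ / 4 := by simp
  have h2 : |(1 / 2) * (∫ x in (-1 : ℝ)..1, f x) - (1 / 2) * ∫ x in (-1 : ℝ)..1, p.eval x| ≤ δ / 4 := by
    rw [← mul_sub, ← intervalIntegral.integral_sub (hf.intervalIntegrable _ _)
      (p.continuous.intervalIntegrable _ _), abs_mul]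
    have h3 : ‖∫ x in (-1 : ℝ)..1, (f x - p.eval x)‖ ≤ (δ / 4) * |1 - (-1)| := by
      apply intervalIntegral.norm_integral_le_of_norm_le_const
      intro x hx
      rw [Set.uIoc_of_le (by norm_num)] at hx
      rw [Real.norm_eq_abs, abs_sub_comm]
      exact (hp x ⟨hx.1.le, hx.2⟩).le
    rw [Real.norm_eq_abs] at h3
    have h4 : |(1 : ℝ) - (-1)| = 2 := by norm_num
    rw [h4] at h3
    have h5 : |(1 / 2 : ℝ)| = 1 / 2 := by norm_num
    rw [h5]
    linarith
  rw [poly_law p] at h1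
  have h6 : δ ≤ δ / 4 + δ / 4 := by
    calc δ = |((∫ g, f (ent g 0 0) ∂haar) - (1 / 2) * ∫ x in (-1 : ℝ)..1, p.eval x) -
          ((1 / 2) * (∫ x in (-1 : ℝ)..1, f x) - (1 / 2) * ∫ x in (-1 : ℝ)..1, p.eval x)| := by
          rw [hδ]; congr 1; ring
      _ ≤ _ := abs_sub _ _
      _ ≤ δ / 4 + δ / 4 := add_le_add h1 h2
  linarith

/-- **Archimedes.** The law of the entry `g₀₀` of a random rotation is uniform on `[-1, 1]`. -/
lemma law_eq : haar.map (fun g : SO3 => ent g 0 0) =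
    (ENNReal.ofReal (1 / 2)) • (volume.restrict (Set.Icc (-1 : ℝ) 1)) := by
  have c0 := continuous_ent 0 0
  have : IsFiniteMeasure ((ENNReal.ofReal (1 / 2)) • (volume.restrict (Set.Icc (-1 : ℝ) 1))) := by
    refine ⟨?_⟩
    rw [Measure.smul_apply, Measure.restrict_apply_univ, Real.volume_Icc, smul_eq_mul]
    exact ENNReal.mul_lt_top ENNReal.ofReal_lt_top ENNReal.ofReal_lt_top
  have : IsFiniteMeasure (haar.map (fun g : SO3 => ent g 0 0)) := by
    infer_instance
  apply ext_of_forall_integral_eq_of_IsFiniteMeasure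
  intro f
  rw [integral_map c0.measurable.aemeasurable f.continuous.aestronglyMeasurable,
    integral_smul_measure, cont_law f f.continuous, integral_Icc_eq_integral_Ioc,
    ← intervalIntegral.integral_of_le (by norm_num)]
  rw [ENNReal.toReal_ofReal (by norm_num), smul_eq_mul]

lemma haar_lt (c : ℝ) (h0 : -1 ≤ c) (h1 : c ≤ 1) :
    haar.real {g : SO3 | ent g 0 0 < c} = (1 + c) / 2 := by
  have c0 := continuous_ent 0 0
  have h : haar {g : SO3 | ent g 0 0 < c} = haar.map (fun g : SO3 => ent g 0 0) (Set.Iio c) := by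
    rw [Measure.map_apply c0.measurable measurableSet_Iio]; rfl
  rw [measureReal_def, h, law_eq, Measure.smul_apply, Measure.restrict_apply measurableSet_Iio,
    smul_eq_mul]
  have h2 : Set.Iio c ∩ Set.Icc (-1 : ℝ) 1 = Set.Ico (-1) c := by
    ext x
    simp only [Set.mem_inter_iff, Set.mem_Iio, Set.mem_Icc, Set.mem_Ico]
    constructor
    · rintro ⟨h3, h4, h5⟩; exact ⟨h4, h3⟩
    · rintro ⟨h3, h4⟩; exact ⟨h4, h3, by linarith⟩
  rw [h2, Real.volume_Ico, ← ENNReal.ofReal_mul (by norm_num), ENNReal.toReal_ofReal]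
  · ring
  · apply mul_nonneg (by norm_num); linarith

lemma haar_gt (c : ℝ) (h0 : -1 ≤ c) (h1 : c ≤ 1) :
    haar.real {g : SO3 | c < ent g 0 0} = (1 - c) / 2 := by
  have c0 := continuous_ent 0 0
  have h : haar {g : SO3 | c < ent g 0 0} = haar.map (fun g : SO3 => ent g 0 0) (Set.Ioi c) := by
    rw [Measure.map_apply c0.measurable measurableSet_Ioi]; rfl
  rw [measureReal_def, h, law_eq, Measure.smul_apply, Measure.restrict_apply measurableSet_Ioi,
    smul_eq_mul]
  have h2 : Set.Ioi c ∩ Set.Icc (-1 : ℝ) 1 = Set.Ioc c 1 := by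
    ext x
    simp only [Set.mem_inter_iff, Set.mem_Ioi, Set.mem_Icc, Set.mem_Ioc]
    constructor
    · rintro ⟨h3, h4, h5⟩; exact ⟨h3, h5⟩
    · rintro ⟨h3, h4⟩; exact ⟨h3, by linarith, h4⟩
  rw [h2, Real.volume_Ioc, ← ENNReal.ofReal_mul (by norm_num), ENNReal.toReal_ofReal]
  · ring
  · apply mul_nonneg (by norm_num); linarith

end Pool.Agent.Lib.MP_60c8e6_al
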