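import Mathlib
import Pool.Agent.Lib.MP_60c8e6_al.Law

set_option autoImplicit false

namespace Pool.Agent.Lib.MP_60c8e6_al.FarCap

open MeasureTheory Matrix Pointwise Pool.Agent.Lib.MP_60c8e6_al

/-- Half turn about the axis spanned by a unit vector `(x, y, z)`. -/
noncomputable def halfTurn (x y z : ℝ) (h : x ^ 2 + y ^ 2 + z ^ 2 = 1) : SO3 :=
  ⟨!![2 * x * x - 1, 2 * x * y, 2 * x * z; 2 * y * x, 2 * y * y - 1, 2 * y * z;
      2 * z * x, 2 * z * y, 2 * z * z - 1], by
    apply so3_mem
    · ext i j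
      fin_cases i <;> fin_cases j <;>
        simp [Matrix.mul_apply, Fin.sum_univ_three]
      · linear_combination (4 * x ^ 2) * h
      · linear_combination (4 * x * y) * h
      · linear_combination (4 * x * z) * h
      · linear_combination (4 * x * y) * h
      · linear_combination (4 * y ^ 2) * h
      · linear_combination (4 * y * z) * h
      · linear_combination (4 * x * z) * h
      · linear_combination (4 * y * z) * h
      · linear_combination (4 * z ^ 2) * h
    · rw [Matrix.det_fin_three]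
      simp
      linear_combination 2 * h⟩

/-- Every unit vector is the image of `e₀` under some rotation (written with negative first
coordinate, which is the case we need). -/
lemma exists_rotation (a b c : ℝ) (h : a ^ 2 + b ^ 2 + c ^ 2 = 1) (ha : a < 0) :
    ∃ g : SO3, ent g 0 0 = a ∧ ent g 1 0 = b ∧ ent g 2 0 = c := by
  -- compose the half turn about `e₂` with the half turn about the bisector of `-e₀` and `(a,b,c)`
  have hpos : 0 < 2 - 2 * a := by linarith
  set s := Real.sqrt (2 - 2 * a) with hs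
  have hs2 : s ^ 2 = 2 - 2 * a := Real.sq_sqrt hpos.le
  have hspos : 0 < s := Real.sqrt_pos.2 hpos
  have hs0 : s ≠ 0 := hspos.ne'
  have hne : (1 - a) ≠ 0 := by linarith
  have hs3 : s ^ 2 = 2 * (1 - a) := by rw [hs2]; ring
  have hunit : ((a - 1) / s) ^ 2 + (b / s) ^ 2 + (c / s) ^ 2 = 1 := by
    rw [div_pow, div_pow, div_pow, ← add_div, ← add_div, hs2, div_eq_one_iff_eq hpos.ne']
    linarith [h, sq (a - 1), sq a]
  refine ⟨halfTurn ((a - 1) / s) (b / s) (c / s) hunit * halfTurn 0 0 1 (by norm_num), ?_, ?_, ?_⟩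
  · rw [ent_mul]
    simp [ent, halfTurn]
    have : 2 * ((a - 1) / s) * ((a - 1) / s) = 2 * (a - 1) ^ 2 / s ^ 2 := by
      field_simp
    rw [this, hs3]
    field_simp
    ring
  · rw [ent_mul]
    simp [ent, halfTurn]
    have : 2 * (b / s) * ((a - 1) / s) = 2 * b * (a - 1) / s ^ 2 := by
      field_simp
    rw [this, hs3]
    field_simp
    ring
  · rw [ent_mul]
    simp [ent, halfTurn]
    have : 2 * (c / s) * ((a - 1) / s) = 2 * c * (a - 1) / s ^ 2 := by
      field_simp
    rw [this, hs3]
    field_simp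
    ring

/-- The set `{g : ∠(e₀, g e₀) > π - θ}`, where `c = cos θ`. -/
def farCap (c : ℝ) : Set SO3 := {g | ent g 0 0 < -c}

lemma isOpen_farCap (c : ℝ) : IsOpen (farCap c) :=
  isOpen_lt (continuous_ent 0 0) continuous_const

lemma mul_farCap (c : ℝ) (h0 : 0 < c) :
    farCap c * farCap c = {g : SO3 | 2 * c ^ 2 - 1 < ent g 0 0} := by
  ext k
  constructor
  · rintro ⟨g, hg, h, hh, rfl⟩
    simp only [farCap, Set.mem_ofPred_eq] at hg hh ⊢
    rw [ent_mul]
    have r := row_norm g 0
    have q := col_norm h 0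
    set a := ent g 0 0
    set b := ent g 0 1
    set d := ent g 0 2
    set x := ent h 0 0
    set y := ent h 1 0
    set z := ent h 2 0
    -- Cauchy-Schwarz : (b y + d z)^2 ≤ (1 - a^2) (1 - x^2)
    have hcs : (b * y + d * z) ^ 2 ≤ (1 - a ^ 2) * (1 - x ^ 2) := by
      have e1 : b ^ 2 + d ^ 2 = 1 - a ^ 2 := by linarith
      have e2 : y ^ 2 + z ^ 2 = 1 - x ^ 2 := by linarith
      rw [← e1, ← e2]
      nlinarith [sq_nonneg (b * z - d * y)]
    have ha1 : a ^ 2 ≤ 1 := by nlinarith [sq_nonneg b, sq_nonneg d]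
    have hx1 : x ^ 2 ≤ 1 := by nlinarith [sq_nonneg y, sq_nonneg z]
    have ha2 : c ^ 2 < a ^ 2 := by nlinarith
    have hx2 : c ^ 2 < x ^ 2 := by nlinarith
    have hax : c ^ 2 < a * x := by nlinarith
    have hbound : (b * y + d * z) ^ 2 < (1 - c ^ 2) ^ 2 := by
      calc (b * y + d * z) ^ 2 ≤ (1 - a ^ 2) * (1 - x ^ 2) := hcs
        _ < (1 - c ^ 2) ^ 2 := by nlinarith
    have hc1 : 0 < 1 - c ^ 2 := by nlinarith
    have := abs_lt_of_sq_lt_sq hbound hc1.le
    have h2 := (abs_lt.1 this).1
    nlinarith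
  · intro hk
    simp only [Set.mem_ofPred_eq] at hk
    have q := col_norm k 0
    set x := ent k 0 0 with hx
    set y := ent k 1 0 with hy
    set z := ent k 2 0 with hz
    have hc2 : 0 < 2 * c ^ 2 := by positivity
    have hpos : 0 < 2 + 2 * x := by nlinarith
    set s := Real.sqrt (2 + 2 * x) with hs
    have hs2 : s ^ 2 = 2 + 2 * x := Real.sq_sqrt hpos.le
    have hspos : 0 < s := Real.sqrt_pos.2 hpos
    have hunit : (-(1 + x) / s) ^ 2 + (-y / s) ^ 2 + (-z / s) ^ 2 = 1 := by
      rw [div_pow, div_pow, div_pow, ← add_div, ← add_div, hs2, div_eq_one_iff_eq hpos.ne']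
      nlinarith
    have hneg : -(1 + x) / s < 0 := by
      apply div_neg_of_neg_of_pos _ hspos
      linarith
    obtain ⟨g, hg0, hg1, hg2⟩ := exists_rotation _ _ _ hunit hneg
    have hscale : -(1 + x) / s = -(s / 2) := by
      rw [div_eq_iff hspos.ne']
      nlinarith
    have hsc : 2 * c < s := by
      apply lt_of_pow_lt_pow_left₀ 2 hspos.le
      rw [hs2]
      nlinarith
    refine ⟨g, ?_, g⁻¹ * k, ?_, by simp⟩
    · show ent g 0 0 < -c
      rw [hg0, hscale]
      linarith
    · show ent (g⁻¹ * k) 0 0 < -c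
      rw [ent_mul, ent_inv, ent_inv, ent_inv, hg0, hg1, hg2, ← hx, ← hy, ← hz]
      have : -(1 + x) / s * x + -y / s * y + -z / s * z = -(s / 2) := by
        rw [← hscale]
        field_simp
        nlinarith
      rw [this]
      linarith

theorem main : ∀ m : ℝ, 0 < m → m < 1 / 2 → ∃ A : Set SO3, IsOpen A ∧ A.Nonempty ∧
    haar.real A = m ∧ haar.real (A * A) = 4 * m * (1 - m) ∧
    ∀ (u : Fin 3 → ℝ) (θ : ℝ), u ⬝ᵥ u = 1 → haar (symmDiff A (cap u θ)) ≠ 0 := by
  intro m hm0 hm1
  set c := 1 - 2 * m with hc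
  have hc0 : 0 < c := by linarith
  have hc1 : c < 1 := by linarith
  have hmeas : haar.real (farCap c) = m := by
    have := haar_lt (-c) (by linarith) (by linarith)
    rw [farCap, this]; linarith
  have hpos : haar (farCap c) ≠ 0 := by
    intro h
    rw [measureReal_def, h] at hmeas
    simp at hmeas
    linarith
  refine ⟨farCap c, isOpen_farCap c, ?_, hmeas, ?_, ?_⟩
  · by_contra hne
    rw [Set.not_nonempty_iff_eq_empty] at hne
    rw [hne] at hpos
    simp at hpos
  · rw [mul_farCap c hc0, haar_gt (2 * c ^ 2 - 1) (by nlinarith) (by nlinarith)]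
    rw [hc]; ring
  · intro u θ hu hzero
    have hcont : Continuous (fun g : SO3 => Real.arccos (u ⬝ᵥ ((g : Matrix (Fin 3) (Fin 3) ℝ) *ᵥ u))) := by
      apply Real.continuous_arccos.comp
      have h1 : Continuous (fun g : SO3 => (g : Matrix (Fin 3) (Fin 3) ℝ)) := continuous_subtype_val
      fun_prop
    have hone : Real.arccos (u ⬝ᵥ (((1 : SO3) : Matrix (Fin 3) (Fin 3) ℝ) *ᵥ u)) = 0 := by
      have : ((1 : SO3) : Matrix (Fin 3) (Fin 3) ℝ) = 1 := rfl
      rw [this, Matrix.one_mulVec, hu, Real.arccos_one]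
    by_cases hθ : 0 < θ
    · -- the cap contains a neighbourhood of `1`, the far cap does not meet one
      set W : Set SO3 := cap u θ ∩ {g | -c < ent g 0 0} with hW
      have hWo : IsOpen W := by
        apply IsOpen.inter
        · exact isOpen_lt hcont continuous_const
        · exact isOpen_lt continuous_const (continuous_ent 0 0)
      have h1W : (1 : SO3) ∈ W := by
        refine ⟨?_, ?_⟩
        · show Real.arccos _ < θ
          rw [hone]; exact hθ
        · show -c < ent 1 0 0
          have : ent 1 0 0 = 1 := rfl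
          rw [this]; linarith
      have hWsub : W ⊆ symmDiff (farCap c) (cap u θ) := by
        rintro g ⟨hg1, hg2⟩
        refine Or.inr ⟨hg1, ?_⟩
        intro hg3
        have h3 : ent g 0 0 < -c := hg3
        have h4 : -c < ent g 0 0 := hg2
        linarith
      have := (hWo.measure_pos haar ⟨1, h1W⟩).ne'
      exact this (measure_mono_null hWsub hzero)
    · -- the cap is empty
      have hempty : cap u θ = ∅ := by
        rw [Set.eq_empty_iff_forall_notMem]
        intro g hg
        have h1 : Real.arccos (u ⬝ᵥ ((g : Matrix (Fin 3) (Fin 3) ℝ) *ᵥ u)) < θ := hg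
        have := Real.arccos_nonneg (u ⬝ᵥ ((g : Matrix (Fin 3) (Fin 3) ℝ) *ᵥ u))
        linarith
      rw [hempty] at hzero
      apply hpos
      simpa using hzero

end Pool.Agent.Lib.MP_60c8e6_al.FarCap
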